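import Mathlib

/-!
# The implication between the degree sequence conditions fails for every `k ≥ 3`
-/

set_option autoImplicit false

open Finset

namespace Pool.Agent.Results.MP_2568f3_co.DegreeImplicationFails

/-- The sum of the `j` smallest entries of `c`, i.e. the sum of the first `j` entries of the
non-decreasing rearrangement of `c`. -/
def prefixSum {k : ℕ} (c : Fin k → ℕ) (j : ℕ) : ℕ :=
  ∑ i ∈ univ.filter (fun i : Fin k => i.val < j), (c ∘ Tuple.sort c) i

/-- The degree of the vertex `v ∈ V` in the subgraph of `K_{n,n}` with edge set `F ⊆ U × V`. -/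
def deg {n : ℕ} (F : Finset (Fin n × Fin n)) (v : Fin n) : ℕ :=
  (F.filter fun e => e.2 = v).card

theorem prefixSum_mono {k : ℕ} {c : Fin k → ℕ} (hc : Monotone c) (j : ℕ) :
    prefixSum c j = ∑ i ∈ univ.filter (fun i : Fin k => i.val < j), c i := by
  rw [prefixSum, Tuple.sort_eq_refl_iff_monotone.mpr hc]
  rfl

theorem le_emb {j k : ℕ} (e : Fin j ↪o Fin k) (t : ℕ) (ht : t < j) : t ≤ (e ⟨t, ht⟩).val := by
  induction t with
  | zero => exact Nat.zero_le _
  | succ t ih =>
    have h1 := ih (by omega)
    have h2 : e ⟨t, by omega⟩ < e ⟨t + 1, ht⟩ := e.lt_iff_lt.mpr (by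
      rw [Fin.lt_def]
      simp)
    rw [Fin.lt_def] at h2
    omega

theorem prefixSum_le {k : ℕ} (c : Fin k → ℕ) (J : Finset (Fin k)) :
    prefixSum c J.card ≤ ∑ i ∈ J, c i := by
  set σ := Tuple.sort c with hσ
  have hmono : Monotone (c ∘ σ) := Tuple.monotone_sort c
  set J' := J.map σ.symm.toEmbedding with hJ'
  have hcard : J'.card = J.card := card_map _
  have hsum : ∑ i ∈ J, c i = ∑ i ∈ J', (c ∘ σ) i := by
    rw [hJ', sum_map]
    refine sum_congr rfl fun i _ => ?_
    simp
  have hjk : J.card ≤ k := by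
    have := card_le_univ J
    rwa [Fintype.card_fin] at this
  clear_value J'
  let e := J'.orderEmbOfFin hcard
  have h1 : ∑ i ∈ J', (c ∘ σ) i = ∑ t : Fin J.card, (c ∘ σ) (e t) := by
    have h2 : J' = univ.map e.toEmbedding := by
      rw [← Finset.coe_inj, coe_map, coe_univ, Set.image_univ]
      exact (Finset.range_orderEmbOfFin J' hcard).symm
    conv_lhs => rw [h2]
    rw [sum_map]
    rfl
  have h3 : prefixSum c J.card = ∑ t : Fin J.card, (c ∘ σ) (Fin.castLE hjk t) := by
    rw [prefixSum]
    have h4 : univ.filter (fun i : Fin k => i.val < J.card) =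
        univ.map (Fin.castLEEmb hjk) := by
      ext i
      simp only [mem_filter, mem_univ, true_and, mem_map]
      constructor
      · intro h
        exact ⟨⟨i.val, h⟩, rfl⟩
      · rintro ⟨t, rfl⟩
        exact t.isLt
    rw [h4, sum_map]
    rfl
  rw [h3, hsum, h1]
  refine sum_le_sum fun t _ => hmono ?_
  rw [Fin.le_def]
  exact le_emb e t.val t.isLt

/-- The subgraphs: `F_1` is one edge at `v_1`; `F_2` has degree `n` at `v_1`, `2` at `v_2`, and `1`
elsewhere; `F_3` has degree `n` at `v_1, v_2` and `3` elsewhere; the others are complete. -/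
def isEdge (i u v : ℕ) : Prop :=
  (i = 0 ∧ u = 0 ∧ v = 0) ∨ (i = 1 ∧ (v = 0 ∨ (v = 1 ∧ u < 2) ∨ u = 0)) ∨
    (i = 2 ∧ (v ≤ 1 ∨ u < 3)) ∨ 3 ≤ i

instance (i u v : ℕ) : Decidable (isEdge i u v) := by
  unfold isEdge
  infer_instance

/-- The subgraph `F_i`. -/
def FF (k n : ℕ) (i : Fin k) : Finset (Fin n × Fin n) :=
  univ.filter fun e => isEdge i.val e.1.val e.2.val

theorem deg_FF (k n : ℕ) (i : Fin k) (v : Fin n) :
    deg (FF k n i) v = (univ.filter fun u : Fin n => isEdge i.val u.val v.val).card := by
  have h : (FF k n i).filter (fun e => e.2 = v) =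
      (univ.filter fun u : Fin n => isEdge i.val u.val v.val).map
        ⟨fun u => (u, v), fun a b h => (Prod.mk.inj h).1⟩ := by
    ext ⟨a, b⟩
    simp only [FF, mem_filter, mem_univ, true_and, mem_map, Function.Embedding.coeFn_mk]
    constructor
    · rintro ⟨h1, h2⟩
      subst h2
      exact ⟨a, h1, rfl⟩
    · rintro ⟨u, h1, h2⟩
      obtain ⟨rfl, rfl⟩ := Prod.mk.inj h2
      exact ⟨h1, rfl⟩
  rw [deg, h, card_map]

theorem card_FF (k n : ℕ) (i : Fin k) : (FF k n i).card = ∑ v : Fin n, deg (FF k n i) v := by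
  rw [Finset.card_eq_sum_card_fiberwise (f := Prod.snd) (t := univ) (fun _ _ => mem_univ _)]
  rfl

theorem card_lt (n m : ℕ) (h : m ≤ n) : (univ.filter fun u : Fin n => u.val < m).card = m := by
  have h4 : univ.filter (fun i : Fin n => i.val < m) = univ.map (Fin.castLEEmb h) := by
    ext i
    simp only [mem_filter, mem_univ, true_and, mem_map]
    constructor
    · intro h
      exact ⟨⟨i.val, h⟩, rfl⟩
    · rintro ⟨t, rfl⟩
      exact t.isLt
  rw [h4, card_map, card_univ, Fintype.card_fin]

theorem deg_zero (k n : ℕ) (hn : 6 ≤ n) (i : Fin k) (hi : i.val = 0) (v : Fin n) :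
    deg (FF k n i) v = if v.val = 0 then 1 else 0 := by
  rw [deg_FF]
  split_ifs with h
  · rw [← card_lt n 1 (by omega)]
    congr 1
    ext u
    simp only [mem_filter, mem_univ, true_and, isEdge]
    omega
  · rw [card_eq_zero, filter_eq_empty_iff]
    intro u _
    unfold isEdge
    omega

theorem deg_one (k n : ℕ) (hn : 6 ≤ n) (i : Fin k) (hi : i.val = 1) (v : Fin n) :
    deg (FF k n i) v = if v.val = 0 then n else if v.val = 1 then 2 else 1 := by
  rw [deg_FF]
  split_ifs with h h'
  · conv_rhs => rw [← card_lt n n le_rfl]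
    congr 1
    ext u
    have := u.isLt
    simp only [mem_filter, mem_univ, true_and, isEdge]
    omega
  · rw [← card_lt n 2 (by omega)]
    congr 1
    ext u
    simp only [mem_filter, mem_univ, true_and, isEdge]
    omega
  · rw [← card_lt n 1 (by omega)]
    congr 1
    ext u
    simp only [mem_filter, mem_univ, true_and, isEdge]
    omega

theorem deg_two (k n : ℕ) (hn : 6 ≤ n) (i : Fin k) (hi : i.val = 2) (v : Fin n) :
    deg (FF k n i) v = if v.val ≤ 1 then n else 3 := by
  rw [deg_FF]
  split_ifs with h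
  · conv_rhs => rw [← card_lt n n le_rfl]
    congr 1
    ext u
    have := u.isLt
    simp only [mem_filter, mem_univ, true_and, isEdge]
    omega
  · rw [← card_lt n 3 (by omega)]
    congr 1
    ext u
    simp only [mem_filter, mem_univ, true_and, isEdge]
    omega

theorem deg_big (k n : ℕ) (i : Fin k) (hi : 3 ≤ i.val) (v : Fin n) :
    deg (FF k n i) v = n := by
  rw [deg_FF]
  conv_rhs => rw [← card_lt n n le_rfl]
  congr 1
  ext u
  have := u.isLt
  simp only [mem_filter, mem_univ, true_and, isEdge]
  omega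

/-- The numbers of edges. -/
def rr (n i : ℕ) : ℕ := if i = 0 then 1 else if i = 1 then 2 * n else if i = 2 then 5 * n - 6
  else n * n

theorem card_eq (k n : ℕ) (hn : 6 ≤ n) (i : Fin k) : (FF k n i).card = rr n i.val := by
  rw [card_FF]
  obtain ⟨m, rfl⟩ : ∃ m, n = m + 2 := ⟨n - 2, by omega⟩
  unfold rr
  split_ifs with h0 h1 h2
  · simp_rw [deg_zero k _ hn i h0]
    rw [Fin.sum_univ_succ]
    simp
  · simp_rw [deg_one k _ hn i h1]
    rw [Fin.sum_univ_succ, Fin.sum_univ_succ]
    simp
    omega
  · simp_rw [deg_two k _ hn i h2]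
    rw [Fin.sum_univ_succ, Fin.sum_univ_succ]
    simp
    omega
  · simp_rw [deg_big k _ i (by omega)]
    simp

theorem rr_mono (n : ℕ) (hn : 6 ≤ n) : Monotone (rr n) := by
  have h1 : 5 * n - 6 ≤ n * n := by
    have : 5 * n ≤ n * n := Nat.mul_le_mul_right n (by omega)
    omega
  refine monotone_nat_of_le_succ fun i => ?_
  unfold rr
  split_ifs
  all_goals first | omega | contradiction

theorem sum_rr (n : ℕ) (hn : 6 ≤ n) (j : ℕ) : ∑ i ∈ range (j + 3), rr n i = 7 * n - 5 + j * (n * n) := by
  induction j with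
  | zero =>
    simp only [sum_range_succ, sum_range_zero, rr]
    simp
    omega
  | succ j ih =>
    rw [show j + 1 + 3 = (j + 3) + 1 by ring, sum_range_succ, ih]
    have : rr n (j + 3) = n * n := by
      unfold rr
      rw [if_neg (by omega), if_neg (by omega), if_neg (by omega)]
    rw [this]
    ring

/-- For every `k ≥ 3` and every `n ≥ max(6, k+2)` there are subgraphs `F_1, ..., F_k` of `K_{n,n}`
which satisfy the hypothesis on the numbers of edges, but every choice of distinct vertices
`u_1, ..., u_k ∈ V` violates the conclusion on the degrees. -/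
theorem result (k n : ℕ) (hk : 3 ≤ k) (hn : 6 ≤ n) (hkn : k + 2 ≤ n) :
    ∃ F : Fin k → Finset (Fin n × Fin n),
      (∀ j, 1 ≤ j → j ≤ k → j * (j - 1) * n < prefixSum (fun i => (F i).card) j) ∧
      ∀ u : Fin k → Fin n, Function.Injective u →
        ∃ j, 1 ≤ j ∧ j ≤ k ∧ prefixSum (fun i => deg (F i) (u i)) j ≤ j * (j - 1) := by
  refine ⟨FF k n, fun j hj hjk => ?_, fun u hu => ?_⟩
  · have hmono : Monotone fun i : Fin k => (FF k n i).card := by
      intro a b hab
      simp only [card_eq k n hn]
      exact rr_mono n hn hab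
    rw [prefixSum_mono hmono]
    have h1 : ∑ i ∈ univ.filter (fun i : Fin k => i.val < j), (FF k n i).card =
        ∑ i ∈ range j, rr n i := by
      simp only [card_eq k n hn]
      refine Finset.sum_bij (fun i _ => i.val) ?_ ?_ ?_ ?_
      · intro a ha
        rw [mem_filter] at ha
        exact mem_range.mpr ha.2
      · intro a _ b _ h
        exact Fin.ext h
      · intro b hb
        rw [mem_range] at hb
        exact ⟨⟨b, by omega⟩, mem_filter.mpr ⟨mem_univ _, hb⟩, rfl⟩
      · intro a _
        rfl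
    rw [h1]
    rcases Nat.lt_or_ge j 3 with h | h
    · have : j = 1 ∨ j = 2 := by omega
      rcases this with rfl | rfl
      · simp [rr]
      · simp [rr, sum_range_succ]
    · obtain ⟨t, rfl⟩ : ∃ t, j = t + 3 := ⟨j - 3, by omega⟩
      rw [sum_rr n hn t]
      have h2 : t + 5 ≤ n := by omega
      have h3 : t * (t + 5) * n ≤ t * (n * n) := by
        rw [mul_assoc]
        exact Nat.mul_le_mul_left t (Nat.mul_le_mul_right n h2)
      have h4 : (t + 3) * (t + 3 - 1) * n = t * (t + 5) * n + 6 * n := by
        rw [show t + 3 - 1 = t + 2 by omega]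
        ring
      omega
  · -- three distinct rows
    have i0 : ∃ i : Fin k, i.val = 0 := ⟨⟨0, by omega⟩, rfl⟩
    have i1 : ∃ i : Fin k, i.val = 1 := ⟨⟨1, by omega⟩, rfl⟩
    have i2 : ∃ i : Fin k, i.val = 2 := ⟨⟨2, by omega⟩, rfl⟩
    obtain ⟨a, ha⟩ := i0
    obtain ⟨b, hb⟩ := i1
    obtain ⟨c, hc⟩ := i2
    have hab : a ≠ b := by
      rintro rfl
      omega
    have hac : a ≠ c := by
      rintro rfl
      omega
    have hbc : b ≠ c := by
      rintro rfl
      omega
    have h0 := deg_zero k n hn a ha (u a)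
    have h1 := deg_one k n hn b hb (u b)
    have h2 := deg_two k n hn c hc (u c)
    have uab : (u a).val ≠ (u b).val := fun h => hab (hu (Fin.ext h))
    have uac : (u a).val ≠ (u c).val := fun h => hac (hu (Fin.ext h))
    have ubc : (u b).val ≠ (u c).val := fun h => hbc (hu (Fin.ext h))
    have p1 := prefixSum_le (fun i => deg (FF k n i) (u i)) {a}
    have p2 := prefixSum_le (fun i => deg (FF k n i) (u i)) {a, b}
    have p3 := prefixSum_le (fun i => deg (FF k n i) (u i)) {a, b, c}
    rw [card_singleton, sum_singleton] at p1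
    rw [card_pair hab, sum_pair hab] at p2
    have hcard3 : ({a, b, c} : Finset (Fin k)).card = 3 := by
      rw [card_insert_of_notMem, card_pair hbc]
      simp [hab, hac]
    rw [hcard3, sum_insert (by simp [hab, hac]), sum_pair hbc] at p3
    by_cases ha0 : (u a).val = 0
    · rw [if_pos ha0] at h0
      rw [if_neg (by omega)] at h1
      by_cases hb1 : (u b).val = 1
      · rw [if_pos hb1] at h1
        rw [if_neg (by omega)] at h2
        exact ⟨3, by omega, by omega, by omega⟩
      · rw [if_neg hb1] at h1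
        exact ⟨2, by omega, by omega, by omega⟩
    · rw [if_neg ha0] at h0
      exact ⟨1, by omega, by omega, by omega⟩

end Pool.Agent.Results.MP_2568f3_co.DegreeImplicationFails
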